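import Pool.Agent.U204.PN.Stm

/-! Project PN, package MOM (helper981): the second moment. -/

set_option autoImplicit false

open MeasureTheory Filter Topology Finset Pool.Agent.U204.PN

namespace Pool.Agent.U981.PN

theorem sum_half (f : ℕ → ℝ) (N : ℕ) :
    ∑ e ∈ range (2 * N), f (e / 2) = 2 * ∑ j ∈ range N, f j := by
  induction N with
  | zero => simp
  | succ N ih =>
    rw [show 2 * (N + 1) = 2 * N + 1 + 1 by ring, sum_range_succ, sum_range_succ, ih,
      sum_range_succ]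
    have h1 : 2 * N / 2 = N := by omega
    have h2 : (2 * N + 1) / 2 = N := by omega
    rw [h1, h2]
    ring

/-- the bound for the correlations -/
noncomputable def H (k : ℕ) (r : ℝ) (d : ℕ) : ℝ := if d ≤ k then 1 else r ^ ((d - (k + 1)) / 2)

theorem H_nonneg {k : ℕ} {r : ℝ} (hr : 0 ≤ r) (d : ℕ) : 0 ≤ H k r d := by
  unfold H; split_ifs <;> positivity

theorem sum_H (k : ℕ) (r : ℝ) (hr0 : 0 ≤ r) (hr1 : r < 1) (N : ℕ) :
    ∑ d ∈ range N, H k r d ≤ (k + 1) + 2 / (1 - r) := by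
  have h1 : ∑ d ∈ range N, H k r d ≤ ∑ d ∈ range (k + 1 + 2 * N), H k r d :=
    sum_le_sum_of_subset_of_nonneg (range_subset_range.2 (by omega)) fun d _ _ => H_nonneg hr0 d
  have h2 : ∑ d ∈ range (k + 1 + 2 * N), H k r d =
      ∑ d ∈ range (k + 1), H k r d + ∑ e ∈ range (2 * N), H k r (k + 1 + e) :=
    sum_range_add _ _ _
  have h3 : ∑ d ∈ range (k + 1), H k r d = k + 1 := by
    rw [sum_congr rfl fun d hd => by
      show H k r d = 1
      rw [mem_range] at hd
      unfold H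
      rw [if_pos (by omega)]]
    simp
  have h4 : ∑ e ∈ range (2 * N), H k r (k + 1 + e) = ∑ e ∈ range (2 * N), r ^ (e / 2) := by
    refine sum_congr rfl fun e _ => ?_
    unfold H
    rw [if_neg (by omega)]
    congr 2
    omega
  have h5 := sum_half (fun j => r ^ j) N
  have h6 := geom_sum_mul_neg r N
  have h7 : ∑ j ∈ range N, r ^ j ≤ 1 / (1 - r) := by
    rw [le_div_iff₀ (by linarith), h6]
    have : 0 ≤ r ^ N := pow_nonneg hr0 N
    linarith
  rw [h2, h3, h4, h5] at h1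
  have h8 : 2 / (1 - r) = 2 * (1 / (1 - r)) := by ring
  rw [h8]
  linarith

theorem sum_abs_diff (k : ℕ) (r : ℝ) (hr0 : 0 ≤ r) (hr1 : r < 1) (N n : ℕ) (hn : n < N) :
    ∑ n' ∈ range N, H k r (max n n' - min n n') ≤ 2 * ((k + 1) + 2 / (1 - r)) := by
  have h1 : ∑ n' ∈ range N, H k r (max n n' - min n n') =
      ∑ n' ∈ range n, H k r (max n n' - min n n') +
        ∑ n' ∈ Ico n N, H k r (max n n' - min n n') := by
    rw [range_eq_Ico, range_eq_Ico]
    exact (sum_Ico_consecutive _ (Nat.zero_le _) hn.le).symm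
  have h2 : ∑ n' ∈ Ico n N, H k r (max n n' - min n n') = ∑ d ∈ range (N - n), H k r d := by
    rw [sum_Ico_eq_sum_range]
    refine sum_congr rfl fun d _ => ?_
    congr 1
    rw [max_eq_right (by omega), min_eq_left (by omega)]
    omega
  have h3 : ∑ n' ∈ range n, H k r (max n n' - min n n') = ∑ d ∈ range n, H k r (d + 1) := by
    rw [← sum_range_reflect (fun d => H k r (d + 1)) n]
    refine sum_congr rfl fun d hd => ?_
    rw [mem_range] at hd
    congr 1
    rw [max_eq_left (by omega), min_eq_right (by omega)]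
    omega
  have h4 : ∑ d ∈ range n, H k r (d + 1) ≤ ∑ d ∈ range (n + 1), H k r d := by
    rw [sum_range_succ']
    linarith [H_nonneg (k := k) hr0 0]
  have h5 := sum_H k r hr0 hr1 (n + 1)
  have h6 := sum_H k r hr0 hr1 (N - n)
  rw [h1, h2, h3]
  linarith

theorem t_MOM : S_MOM := by
  intro h1 h3 h4 h2 h5 μ hμp S c₀ δ hc hδ hδ2 hμ M k c hM hdiv
  obtain ⟨κ, hκ0, hκ1, hcov⟩ := h5 h1 h2 h3 M hM
  refine ⟨2 * (k + 1) + 8 / (κ * c₀ ^ 2), fun N hN => ?_⟩
  set P := Measure.infinitePi μ with hP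
  have hloc : ∀ n n' : ℕ, Loc fun ω => X (chg S ω) M k c n' *
      (starRingEnd ℂ) (X (chg S ω) M k c n) := by
    intro n n'
    obtain ⟨L, hL⟩ := loc_X h1 S M k c n
    obtain ⟨L', hL'⟩ := loc_X h1 S M k c n'
    refine ⟨max L L', fun ω ω' h => ?_⟩
    have e1 := hL ω ω' fun i hi => h i (lt_max_of_lt_left hi)
    have e2 := hL' ω ω' fun i hi => h i (lt_max_of_lt_right hi)
    simp only at e1 e2 ⊢
    rw [e1, e2]
  have hint : ∀ n n' : ℕ, Integrable (fun ω => X (chg S ω) M k c n' *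
      (starRingEnd ℂ) (X (chg S ω) M k c n)) P := fun n n' => ((h3 μ 0).2 _ (hloc n n')).2.1
  -- the parameters
  have hN0 : (0 : ℝ) < N := by exact_mod_cast hN
  set η : ℝ := c₀ * (N : ℝ) ^ (-δ) with hη
  have hη0 : 0 < η := by positivity
  have hηm : ∀ m < N, η ≤ (μ m).real {true} ∧ (μ m).real {true} ≤ 1 / 2 := by
    intro m hm
    refine ⟨le_trans ?_ (hμ m).1, (hμ m).2⟩
    rw [hη]
    apply mul_le_mul_of_nonneg_left _ hc.le
    apply Real.rpow_le_rpow_of_nonpos (by positivity) _ (by linarith)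
    exact_mod_cast hm
  have hη1 : η ≤ 1 / 2 := (hηm 0 hN).1.trans (hηm 0 hN).2
  set r : ℝ := 1 - κ * η ^ 2 / 2 with hr
  have hκη : 0 < κ * η ^ 2 := by positivity
  have hκη1 : κ * η ^ 2 ≤ 1 := by nlinarith
  have hr0 : 0 ≤ r := by rw [hr]; linarith
  have hr1 : r < 1 := by rw [hr]; linarith
  -- the correlations
  have hg1 : ∀ n n' : ℕ, ‖∫ ω, X (chg S ω) M k c n' *
      (starRingEnd ℂ) (X (chg S ω) M k c n) ∂P‖ ≤ 1 := by
    intro n n'
    have h6 := norm_integral_le_of_norm_le_const (μ := P) (C := 1)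
      (f := fun ω => X (chg S ω) M k c n' * (starRingEnd ℂ) (X (chg S ω) M k c n))
      (ae_of_all _ fun ω => by
        rw [norm_mul, RCLike.norm_conj]
        exact mul_le_one₀ (norm_X _ _ _ _ _) (norm_nonneg _) (norm_X _ _ _ _ _))
    rwa [probReal_univ, mul_one] at h6
  have hlt : ∀ n n' : ℕ, n < n' → n' < N → ‖∫ ω, X (chg S ω) M k c n' *
      (starRingEnd ℂ) (X (chg S ω) M k c n) ∂P‖ ≤ H k r (n' - n) := by
    intro n n' hnn hn'
    unfold H
    split_ifs with hd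
    · exact hg1 n n'
    · have e1 := hcov μ S k c n n' ((n' - n - (k + 1)) / 2) η (by omega) (by omega) hη0.le
        (fun m hm => hηm m (by omega))
      have e2 := h4 h1 h2 h3 μ S M k c hdiv ((n' - n - (k + 1)) / 2) η (κ * η) hη0.le
        (by positivity) (fun m hm => hηm m (by omega))
      refine e1.trans (e2.trans ?_)
      have hx0 : 0 < κ * η := by positivity
      have hx1 : κ * η ≤ 1 := by nlinarith
      have e3 : Real.exp (-(κ * η)) ≤ 1 - κ * η / 2 := by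
        rw [Real.exp_neg]
        have e4 : 1 + κ * η ≤ Real.exp (κ * η) := by linarith [Real.add_one_le_exp (κ * η)]
        refine (inv_anti₀ (by linarith) e4).trans ?_
        rw [inv_le_iff_one_le_mul₀ (by linarith)]
        nlinarith
      have e5 : 0 ≤ Real.exp (-(κ * η)) := (Real.exp_pos _).le
      apply pow_le_pow_left₀
      · nlinarith
      · rw [hr]
        nlinarith
  have hgt : ∀ n n' : ℕ, ‖∫ ω, X (chg S ω) M k c n' *
      (starRingEnd ℂ) (X (chg S ω) M k c n) ∂P‖ = ‖∫ ω, X (chg S ω) M k c n *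
      (starRingEnd ℂ) (X (chg S ω) M k c n') ∂P‖ := by
    intro n n'
    rw [← RCLike.norm_conj, ← integral_conj]
    congr 2
    funext ω
    rw [map_mul, Complex.conj_conj, mul_comm]
  have hall : ∀ n < N, ∀ n' < N, ‖∫ ω, X (chg S ω) M k c n' *
      (starRingEnd ℂ) (X (chg S ω) M k c n) ∂P‖ ≤ H k r (max n n' - min n n') := by
    intro n hn n' hn'
    rcases lt_trichotomy n n' with h | h | h
    · rw [max_eq_right h.le, min_eq_left h.le]
      exact hlt n n' h hn'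
    · subst h
      rw [max_self, min_self, Nat.sub_self]
      unfold H
      rw [if_pos (Nat.zero_le _)]
      exact hg1 n n
    · rw [max_eq_left h.le, min_eq_right h.le, hgt]
      exact hlt n' n h hn
  -- expansion of the square
  have hexp : ((∫ ω, ‖∑ n ∈ range N, X (chg S ω) M k c n‖ ^ 2 ∂P : ℝ) : ℂ) =
      ∑ n ∈ range N, ∑ n' ∈ range N, ∫ ω, X (chg S ω) M k c n' *
        (starRingEnd ℂ) (X (chg S ω) M k c n) ∂P := by
    rw [← integral_complex_ofReal]
    have e1 : ∀ ω, (((‖∑ n ∈ range N, X (chg S ω) M k c n‖ ^ 2 : ℝ)) : ℂ) =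
        ∑ n ∈ range N, ∑ n' ∈ range N, X (chg S ω) M k c n' *
          (starRingEnd ℂ) (X (chg S ω) M k c n) := by
      intro ω
      rw [Complex.ofReal_pow, ← Complex.mul_conj', map_sum, mul_sum]
      exact sum_congr rfl fun n _ => sum_mul _ _ _
    simp only [e1]
    rw [integral_finsetSum _ fun n _ => integrable_finsetSum _ fun n' _ => hint n n']
    exact sum_congr rfl fun n _ => integral_finsetSum _ fun n' _ => hint n n'
  have hI0 : 0 ≤ ∫ ω, ‖∑ n ∈ range N, X (chg S ω) M k c n‖ ^ 2 ∂P :=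
    integral_nonneg fun ω => by positivity
  have hmain : ∫ ω, ‖∑ n ∈ range N, X (chg S ω) M k c n‖ ^ 2 ∂P ≤
      N * (2 * ((k + 1) + 2 / (1 - r))) := by
    calc ∫ ω, ‖∑ n ∈ range N, X (chg S ω) M k c n‖ ^ 2 ∂P
        = ‖((∫ ω, ‖∑ n ∈ range N, X (chg S ω) M k c n‖ ^ 2 ∂P : ℝ) : ℂ)‖ := by
          rw [Complex.norm_real, Real.norm_eq_abs, abs_of_nonneg hI0]
      _ ≤ ∑ n ∈ range N, ∑ n' ∈ range N, ‖∫ ω, X (chg S ω) M k c n' *
          (starRingEnd ℂ) (X (chg S ω) M k c n) ∂P‖ := by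
          rw [hexp]
          exact (norm_sum_le _ _).trans (sum_le_sum fun n _ => norm_sum_le _ _)
      _ ≤ ∑ n ∈ range N, ∑ n' ∈ range N, H k r (max n n' - min n n') :=
          sum_le_sum fun n hn => sum_le_sum fun n' hn' =>
            hall n (mem_range.1 hn) n' (mem_range.1 hn')
      _ ≤ ∑ _n ∈ range N, (2 * ((k + 1) + 2 / (1 - r))) :=
          sum_le_sum fun n hn => sum_abs_diff k r hr0 hr1 N n (mem_range.1 hn)
      _ = N * (2 * ((k + 1) + 2 / (1 - r))) := by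
          rw [sum_const, card_range, nsmul_eq_mul]
  refine hmain.trans ?_
  -- the arithmetic
  have e1 : 1 - r = κ * η ^ 2 / 2 := by rw [hr]; ring
  have e2 : η ^ 2 = c₀ ^ 2 * (N : ℝ) ^ (-(2 * δ)) := by
    rw [hη, mul_pow, ← Real.rpow_natCast ((N : ℝ) ^ (-δ)) 2, ← Real.rpow_mul hN0.le]
    congr 2
    push_cast
    ring
  have e3 : (N : ℝ) ^ (1 + 2 * δ) = N * (N : ℝ) ^ (2 * δ) := by
    rw [Real.rpow_add hN0, Real.rpow_one]
  have e4 : (1 : ℝ) ≤ (N : ℝ) ^ (2 * δ) :=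
    Real.one_le_rpow (by exact_mod_cast hN) (by linarith)
  have e5 : 2 / (1 - r) = 4 / (κ * c₀ ^ 2) * (N : ℝ) ^ (2 * δ) := by
    rw [e1, e2, Real.rpow_neg hN0.le]
    have : (0 : ℝ) < (N : ℝ) ^ (2 * δ) := by positivity
    field_simp
    ring
  rw [e5, e3]
  have e6 : 0 ≤ (N : ℝ) * (k + 1) := by positivity
  have e7 : (N : ℝ) * (2 * ((k + 1) + 4 / (κ * c₀ ^ 2) * (N : ℝ) ^ (2 * δ))) =
      2 * ((N : ℝ) * (k + 1)) + 8 / (κ * c₀ ^ 2) * (N * (N : ℝ) ^ (2 * δ)) := by ring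
  have e8 : (2 * (k + 1) + 8 / (κ * c₀ ^ 2)) * ((N : ℝ) * (N : ℝ) ^ (2 * δ)) =
      2 * (((N : ℝ) * (k + 1)) * (N : ℝ) ^ (2 * δ)) +
        8 / (κ * c₀ ^ 2) * (N * (N : ℝ) ^ (2 * δ)) := by ring
  rw [e7, e8]
  have e9 := le_mul_of_one_le_right e6 e4
  linarith

end Pool.Agent.U981.PN
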